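import Pool.Agent.H359R2.NearSqf

/-!
Task SQF of helper492: `n ^ 2 + 1` is squarefree up to a polylogarithmic square factor, except for
few `n`.
-/

namespace Pool.Agent.H492R2

open Finset

open Classical in
/-- the bad `n` up to `N` -/
noncomputable def badSq (N : ℕ) (S : ℝ) : Finset ℕ :=
  (range (N + 1)).filter (fun n => ∃ s : ℕ, S < s ∧ s ^ 2 ∣ n ^ 2 + 1)

open Classical in
lemma card_badSq_le (N : ℕ) (S B : ℝ) (hN : 1 ≤ N) (hS : 1 ≤ S)
    (hB : ∀ X : ℕ, 1 ≤ X → X ≤ N →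
      (((Finset.Ioc X (X + X)).filter (fun n => ∃ s : ℕ, S < s ∧ s ^ 2 ∣ n ^ 2 + 1)).card : ℝ) ≤ B) :
    ((badSq N S).card : ℝ) ≤ ((Nat.log 2 N : ℝ) + 1) * B := by
  classical
  let Q : ℕ → Finset ℕ := fun i => (Finset.Ioc (2 ^ i) (2 ^ i + 2 ^ i)).filter
    (fun n => ∃ s : ℕ, S < s ∧ s ^ 2 ∣ n ^ 2 + 1)
  have hsub : badSq N S ⊆ (range (Nat.log 2 N + 1)).biUnion Q := by
    intro n hn
    unfold badSq at hn
    rw [mem_filter, mem_range] at hn
    obtain ⟨hnN, s, hs, hdvd⟩ := hn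
    have hs1 : 1 < s := by
      have : (1 : ℝ) < s := lt_of_le_of_lt hS hs
      exact_mod_cast this
    have h4 : 4 ≤ n ^ 2 + 1 := by
      have h1 := Nat.le_of_dvd (Nat.succ_pos _) hdvd
      have h2 : 2 ^ 2 ≤ s ^ 2 := Nat.pow_le_pow_left hs1 2
      omega
    have hn2 : 2 ≤ n := by
      by_contra hcon
      push Not at hcon
      interval_cases n <;> omega
    rw [mem_biUnion]
    refine ⟨Nat.log 2 (n - 1), ?_, ?_⟩
    · rw [mem_range, Nat.lt_succ_iff]
      exact Nat.log_mono_right (by omega)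
    · have h1 : 2 ^ Nat.log 2 (n - 1) ≤ n - 1 := Nat.pow_log_le_self 2 (by omega)
      have h2 : n - 1 < 2 ^ (Nat.log 2 (n - 1) + 1) := Nat.lt_pow_succ_log_self (by norm_num) _
      rw [pow_succ] at h2
      rw [mem_filter, mem_Ioc]
      exact ⟨⟨by omega, by omega⟩, s, hs, hdvd⟩
  have h1 : ((badSq N S).card : ℝ) ≤ ∑ i ∈ range (Nat.log 2 N + 1), ((Q i).card : ℝ) := by
    have := (Finset.card_le_card hsub).trans Finset.card_biUnion_le
    exact_mod_cast this
  have h2 : ∑ i ∈ range (Nat.log 2 N + 1), ((Q i).card : ℝ) ≤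
      ∑ i ∈ range (Nat.log 2 N + 1), B := by
    apply Finset.sum_le_sum
    intro i hi
    rw [mem_range, Nat.lt_succ_iff] at hi
    have h3 : 2 ^ i ≤ N := (Nat.pow_le_pow_right (by norm_num) hi).trans
      (Nat.pow_log_le_self 2 (by omega))
    have h4 := hB (2 ^ i) Nat.one_le_two_pow h3
    convert h4
  rw [Finset.sum_const, card_range, nsmul_eq_mul] at h2
  push_cast at h2
  exact h1.trans h2

lemma natLog_le (N : ℕ) (hN : 1 ≤ N) : (Nat.log 2 N : ℝ) ≤ 3 / 2 * Real.log N := by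
  have h1 : 2 ^ Nat.log 2 N ≤ N := Nat.pow_log_le_self 2 (by omega)
  have h2 : Real.log ((2 : ℝ) ^ Nat.log 2 N) ≤ Real.log N := by
    apply Real.log_le_log (by positivity)
    exact_mod_cast h1
  rw [Real.log_pow] at h2
  have h3 : (0.6931471803 : ℝ) < Real.log 2 := Real.log_two_gt_d9
  have h4 : (0 : ℝ) ≤ Nat.log 2 N := Nat.cast_nonneg _
  nlinarith

/-- SQF : `n ^ 2 + 1` is squarefree up to a polylogarithmic square factor, except for few `n`. -/
theorem nearsq (P : ℕ → Prop) (a : ℕ)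
    (hP : ∃ N0 : ℕ, ∀ N : ℕ, N0 ≤ N →
      (N : ℝ) / (Real.log N) ^ a ≤ ((Set.ncard {n : ℕ | n ≤ N ∧ P n} : ℕ) : ℝ)) :
    ∃ N0 : ℕ, ∀ N : ℕ, N0 ≤ N → (N : ℝ) / (Real.log N) ^ (a + 1) ≤
      ((Set.ncard {n : ℕ | n ≤ N ∧ P n ∧ ∃ s m : ℕ, n ^ 2 + 1 = s ^ 2 * m ∧ Squarefree m ∧
        (s : ℝ) ≤ (Real.log N) ^ (a + 6)} : ℕ) : ℝ) := by
  classical
  obtain ⟨N0, hN0⟩ := hP
  have hev : ∀ᶠ x : ℝ in Filter.atTop, ‖Real.log x ^ (3 * a + 18)‖ ≤ (1 / 20) * ‖id x‖ :=
    Real.isLittleO_pow_log_id_atTop.bound (by norm_num)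
  have hev2 : ∀ᶠ x : ℝ in Filter.atTop, 200 ≤ Real.log x :=
    Real.tendsto_log_atTop.eventually_ge_atTop 200
  obtain ⟨x1, hx1⟩ := Filter.eventually_atTop.mp (hev.and hev2)
  refine ⟨max N0 (⌈x1⌉₊ + 3), ?_⟩
  intro N hN
  have hNN0 : N0 ≤ N := (le_max_left _ _).trans hN
  have hN1 : ⌈x1⌉₊ + 3 ≤ N := (le_max_right _ _).trans hN
  have hxN : x1 ≤ (N : ℝ) := by
    calc x1 ≤ (⌈x1⌉₊ : ℝ) := Nat.le_ceil _
      _ ≤ N := by exact_mod_cast (by omega : ⌈x1⌉₊ ≤ N)
  obtain ⟨hA, hB⟩ := hx1 N hxN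
  have hmain := hN0 N hNN0
  set L := Real.log N with hL
  have hLpos : 0 < L := by linarith
  have hL1 : 1 ≤ L := by linarith
  have hNpos : (0 : ℝ) < N := by exact_mod_cast (by omega : 0 < N)
  rw [id, Real.norm_of_nonneg (by positivity), Real.norm_of_nonneg hNpos.le] at hA
  set S := L ^ (a + 6) with hSdef
  have hS1 : 1 ≤ S := one_le_pow₀ hL1
  have hSpos : 0 < S := by linarith
  set Z := ⌊(N : ℝ) / L ^ (a + 8)⌋₊ with hZ
  have hZle : (Z : ℝ) ≤ N / L ^ (a + 8) := Nat.floor_le (by positivity)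
  have hZgt : (N : ℝ) / L ^ (a + 8) < Z + 1 := Nat.lt_floor_add_one _
  have hZN : (Z : ℝ) ≤ N := by
    refine hZle.trans ?_
    rw [div_le_iff₀ (by positivity)]
    have : (1 : ℝ) ≤ L ^ (a + 8) := one_le_pow₀ hL1
    nlinarith
  have hlogZ : 1 + Real.log Z ≤ 2 * L := by
    have h1 : Real.log Z ≤ L := by
      rcases Nat.eq_zero_or_pos Z with h | h
      · rw [h]; simp only [Nat.cast_zero, Real.log_zero]; linarith
      · exact Real.log_le_log (by exact_mod_cast h) hZN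
    linarith
  have hlogZ0 : 0 ≤ 1 + Real.log Z := by
    have : 0 ≤ Real.log Z := Real.log_natCast_nonneg _
    linarith
  have hpow : (1 + Real.log Z) ^ 4 ≤ 16 * L ^ 4 := by
    calc (1 + Real.log Z) ^ 4 ≤ (2 * L) ^ 4 := pow_le_pow_left₀ hlogZ0 hlogZ 4
      _ = 16 * L ^ 4 := by ring
  -- the bound on every block
  have hblock : ∀ X : ℕ, 1 ≤ X → X ≤ N →
      (((Finset.Ioc X (X + X)).filter (fun n => ∃ s : ℕ, S < s ∧ s ^ 2 ∣ n ^ 2 + 1)).card : ℝ) ≤
        65 * (N / L ^ (a + 2)) := by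
    intro X hX hXN
    have hc := H359R2.card_large_square X Z S hX hSpos
    have hXR : (X : ℝ) ≤ N := by exact_mod_cast hXN
    have hX0 : (0 : ℝ) ≤ X := Nat.cast_nonneg _
    have t1 : 2 * X * (1 + Real.log Z) ^ 4 / S ≤ 32 * (N / L ^ (a + 2)) := by
      calc 2 * X * (1 + Real.log Z) ^ 4 / S ≤ 2 * N * (16 * L ^ 4) / S := by
            apply div_le_div_of_nonneg_right _ hSpos.le
            apply mul_le_mul _ hpow (by positivity) (by positivity)
            linarith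
        _ = 32 * (N / L ^ (a + 2)) := by
            rw [hSdef, show a + 6 = (a + 2) + 4 by ring, pow_add L (a + 2) 4]
            field_simp
            ring
    have t2 : 2 * Z * (1 + Real.log Z) ^ 4 ≤ 32 * (N / L ^ (a + 2)) := by
      calc 2 * Z * (1 + Real.log Z) ^ 4 ≤ 2 * (N / L ^ (a + 8)) * (16 * L ^ 4) := by
            apply mul_le_mul _ hpow (by positivity) (by positivity)
            linarith
        _ = 32 * (N / L ^ (a + 2)) / L ^ 2 := by
            rw [show a + 8 = (a + 2) + 6 by ring, pow_add L (a + 2) 6]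
            field_simp
            ring
        _ ≤ 32 * (N / L ^ (a + 2)) := by
            apply div_le_self (by positivity)
            exact one_le_pow₀ hL1
    have t3 : 10 * (X : ℝ) ^ 2 / (Z + 1) ^ 2 ≤ N / L ^ (a + 2) := by
      have h1 : (N / L ^ (a + 8)) ^ 2 ≤ ((Z : ℝ) + 1) ^ 2 :=
        pow_le_pow_left₀ (by positivity) hZgt.le 2
      calc 10 * (X : ℝ) ^ 2 / (Z + 1) ^ 2 ≤ 10 * (N : ℝ) ^ 2 / (N / L ^ (a + 8)) ^ 2 := by
            apply div_le_div₀ (by positivity) _ (by positivity) h1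
            have := pow_le_pow_left₀ hX0 hXR 2
            linarith
        _ = 10 * L ^ (2 * a + 16) := by
            rw [show 2 * a + 16 = (a + 8) * 2 by ring, pow_mul]
            field_simp
        _ ≤ N / L ^ (a + 2) := by
            rw [le_div_iff₀ (by positivity)]
            calc 10 * L ^ (2 * a + 16) * L ^ (a + 2) = 10 * L ^ (3 * a + 18) := by
                  rw [mul_assoc, ← pow_add]; congr 2; ring
              _ ≤ (N : ℝ) := by linarith
    linarith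
  have hcard := card_badSq_le N S _ (by omega) hS1 hblock
  have hlog := natLog_le N (by omega)
  rw [← hL] at hlog
  have hnum : (Nat.log 2 N : ℝ) + 1 ≤ 2 * L := by linarith
  have hbad : ((badSq N S).card : ℝ) ≤ 130 * (N / L ^ (a + 1)) := by
    calc ((badSq N S).card : ℝ) ≤ ((Nat.log 2 N : ℝ) + 1) * (65 * (N / L ^ (a + 2))) := hcard
      _ ≤ (2 * L) * (65 * (N / L ^ (a + 2))) := by
          apply mul_le_mul_of_nonneg_right hnum (by positivity)
      _ = 130 * (N / L ^ (a + 1)) := by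
          rw [show a + 2 = (a + 1) + 1 by ring, pow_succ L (a + 1)]
          field_simp
          ring
  -- compare the sets
  set G : Set ℕ := {n : ℕ | n ≤ N ∧ P n ∧ ∃ s m : ℕ, n ^ 2 + 1 = s ^ 2 * m ∧ Squarefree m ∧
        (s : ℝ) ≤ S} with hG
  have hGfin : G.Finite := by
    apply Set.Finite.subset (Set.finite_Icc 0 N)
    intro n hn
    exact ⟨Nat.zero_le _, hn.1⟩
  have hAsub : {n : ℕ | n ≤ N ∧ P n} ⊆ G ∪ (badSq N S : Set ℕ) := by
    intro n hn
    obtain ⟨hn1, hn2⟩ := hn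
    obtain ⟨m, s, hms, hm⟩ := Nat.sq_mul_squarefree (n ^ 2 + 1)
    by_cases hs : (s : ℝ) ≤ S
    · left
      exact ⟨hn1, hn2, s, m, hms.symm, hm, hs⟩
    · right
      push Not at hs
      unfold badSq
      rw [Finset.mem_coe, mem_filter, mem_range]
      exact ⟨by omega, s, hs, ⟨m, hms.symm⟩⟩
  have hcount : ((Set.ncard {n : ℕ | n ≤ N ∧ P n} : ℕ) : ℝ) ≤ (G.ncard : ℝ) +
      ((badSq N S).card : ℝ) := by
    have h1 : Set.ncard {n : ℕ | n ≤ N ∧ P n} ≤ (G ∪ (badSq N S : Set ℕ)).ncard :=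
      Set.ncard_le_ncard hAsub (hGfin.union (Finset.finite_toSet _))
    have h2 := Set.ncard_union_le G (badSq N S : Set ℕ)
    rw [Set.ncard_coe_finset] at h2
    exact_mod_cast h1.trans h2
  have hfin : (N : ℝ) / L ^ a = L * (N / L ^ (a + 1)) := by
    rw [pow_succ]; field_simp
  have hq : 0 ≤ (N : ℝ) / L ^ (a + 1) := by positivity
  nlinarith

end Pool.Agent.H492R2
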